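import Pool.Agent.MP_aaf698_co.Core

-- part MP_aaf698_co.Num
section

namespace Pool.Agent.MP_aaf698_co

open Function Set

/-- The numerical data of a realization: fibre sizes, covered vertices and flows. -/
structure Num {V C : Type} (S : Set V) (m : V → V → ℕ) (n : V → ℕ) (cov : C → V → Prop)
    (f : C → V → V → ℕ) : Prop where
  symm : ∀ c u v, f c u v = f c v u
  le : ∀ c u v, f c u v ≤ m u v
  mem : ∀ c u v, 0 < f c u v → v ∈ S
  sum : ∀ c u (T : Finset V), (∀ v, 0 < f c u v → v ∈ T) → cov c u → ∑ v ∈ T, f c u v = n u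
  cov_of : ∀ c u v, 0 < f c u v → cov c u
  mul : ∀ u ∈ S, ∀ v ∈ S, m u v ≤ n u * n v
  ex : ∀ u ∈ S, ∀ v ∈ S, 0 < m u v → ∃ c, 0 < f c u v
  sep : ∀ u ∈ S, ∀ v ∈ S, u ≠ v → ∃ c, ¬ (cov c u ↔ cov c v)

theorem HasCore.num {V : Type} {S : Set V} {m : V → V → ℕ} (h : HasCore S m) :
    ∃ (C : Type) (n : V → ℕ) (cov : C → V → Prop) (f : C → V → V → ℕ), Num S m n cov f := by
  classical
  obtain ⟨X, C, W, π, R, h⟩ := h
  have m2 : ∀ c x y, R c x y → y ∈ W := fun c x y e => h.mem _ _ _ (h.symm _ _ _ e)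
  have hS : ∀ x ∈ W, π x ∈ S := fun x hx => h.img ▸ mem_image_of_mem _ hx
  have fin1 : ∀ Q : X × X → Prop, (∀ p, Q p → ∃ c, R c p.1 p.2) → {p | Q p}.Finite :=
    fun Q hQ => (h.fin.prod h.fin).subset fun p hp =>
      let ⟨c, hc⟩ := hQ p hp
      ⟨h.mem _ _ _ hc, m2 _ _ _ hc⟩
  have fin2 : ∀ c u v, {p : X × X | π p.1 = u ∧ π p.2 = v ∧ R c p.1 p.2}.Finite :=
    fun c u v => fin1 _ fun p hp => ⟨c, hp.2.2⟩
  have fin3 : ∀ u v, {p : X × X | π p.1 = u ∧ π p.2 = v ∧ ∃ c, R c p.1 p.2}.Finite :=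
    fun u v => fin1 _ fun p hp => hp.2.2
  have fin4 : ∀ u, {x ∈ W | π x = u}.Finite := fun u => h.fin.subset fun x hx => hx.1
  have pos : ∀ c u v, 0 < {p : X × X | π p.1 = u ∧ π p.2 = v ∧ R c p.1 p.2}.ncard ↔
      ∃ x y, π x = u ∧ π y = v ∧ R c x y := fun c u v => by
    rw [ncard_pos (fin2 c u v)]
    exact ⟨fun ⟨p, hp⟩ => ⟨p.1, p.2, hp⟩, fun ⟨x, y, hp⟩ => ⟨(x, y), hp⟩⟩
  have hcov : ∀ c, ∀ x ∈ W, (∃ x' z, π x' = π x ∧ R c x' z) ↔ ∃ z, R c x z := fun c x hx =>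
    ⟨fun ⟨x', z, a, b⟩ => ((h.pal x' (h.mem _ _ _ b) x hx).1 a c).1 ⟨z, b⟩,
      fun ⟨z, b⟩ => ⟨x, z, rfl, b⟩⟩
  refine ⟨C, fun u => {x ∈ W | π x = u}.ncard, fun c u => ∃ x z, π x = u ∧ R c x z,
    fun c u v => {p : X × X | π p.1 = u ∧ π p.2 = v ∧ R c p.1 p.2}.ncard, fun c u v => ?_,
    fun c u v => ?_, fun c u v hf => ?_, fun c u T hT hc => ?_, fun c u v hf => ?_,
    fun u hu v hv => ?_, fun u hu v hv hm => ?_, fun u hu v hv hne => ?_⟩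
  · rw [← ncard_image_of_injective _ Prod.swap_injective]
    congr 1
    ext ⟨x, y⟩
    constructor
    · rintro ⟨p, ⟨a, b, c⟩, e⟩
      rw [← e]
      exact ⟨b, a, h.symm _ _ _ c⟩
    · rintro ⟨a, b, c⟩
      exact ⟨(y, x), ⟨b, a, h.symm _ _ _ c⟩, rfl⟩
  · rcases Nat.eq_zero_or_pos {p : X × X | π p.1 = u ∧ π p.2 = v ∧ R c p.1 p.2}.ncard with e | e
    · omega
    · obtain ⟨x, y, rfl, rfl, hr⟩ := (pos c u v).1 e
      rw [← h.count _ (hS _ (h.mem _ _ _ hr)) _ (hS _ (m2 _ _ _ hr))]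
      exact ncard_le_ncard (fun p hp => ⟨hp.1, hp.2.1, c, hp.2.2⟩) (fin3 _ _)
  · obtain ⟨x, y, rfl, rfl, hr⟩ := (pos c u v).1 hf
    exact hS _ (m2 _ _ _ hr)
  · have hP : {p : X × X | π p.1 = u ∧ R c p.1 p.2}.Finite := fin1 _ fun p hp => ⟨c, hp.2⟩
    have e1 : {x ∈ W | π x = u} = Prod.fst '' {p : X × X | π p.1 = u ∧ R c p.1 p.2} := by
      ext x
      constructor
      · rintro ⟨hx, rfl⟩
        obtain ⟨z, hz⟩ := (hcov c x hx).1 hc
        exact ⟨(x, z), ⟨rfl, hz⟩, rfl⟩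
      · rintro ⟨p, ⟨a, b⟩, rfl⟩
        exact ⟨h.mem _ _ _ b, a⟩
    rw [e1, InjOn.ncard_image, ncard_eq_toFinset_card _ hP,
      Finset.card_eq_sum_card_fiberwise (f := fun p : X × X => π p.2) (t := T)]
    · refine Finset.sum_congr rfl fun v _ => ?_
      rw [← ncard_coe_finset]
      congr 1
      ext p
      simp only [mem_ofPred_eq, Finset.coe_filter, Finite.mem_toFinset]
      tauto
    · intro p hp
      simp only [Finite.coe_toFinset, mem_ofPred_eq] at hp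
      exact hT _ ((pos c u _).2 ⟨p.1, p.2, hp.1, rfl, hp.2⟩)
    · rintro ⟨x, y⟩ ⟨-, a⟩ ⟨x', y'⟩ ⟨-, b⟩ e
      obtain rfl : x = x' := e
      exact Prod.ext rfl (h.func _ _ _ _ a b)
  · obtain ⟨x, y, a, -, hr⟩ := (pos c u v).1 hf
    exact ⟨x, y, a, hr⟩
  · rw [← h.count u hu v hv, ← ncard_prod]
    exact ncard_le_ncard (fun p ⟨a, b, c, e⟩ => ⟨⟨h.mem _ _ _ e, a⟩, m2 _ _ _ e, b⟩)
      ((fin4 u).prod (fin4 v))
  · rw [← h.count u hu v hv, ncard_pos (fin3 u v)] at hm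
    obtain ⟨p, a, b, c, e⟩ := hm
    exact ⟨c, (pos c u v).2 ⟨p.1, p.2, a, b, e⟩⟩
  · obtain ⟨x, hx, rfl⟩ : u ∈ π '' W := h.img ▸ hu
    obtain ⟨y, hy, rfl⟩ : v ∈ π '' W := h.img ▸ hv
    by_contra hc
    push Not at hc
    refine hne ((h.pal x hx y hy).2 fun c => ?_)
    rw [← hcov c x hx, ← hcov c y hy]
    exact hc c

variable {V C : Type} {S : Set V} {m : V → V → ℕ} {n : V → ℕ} {cov : C → V → Prop}
  {f : C → V → V → ℕ}

theorem Num.leaf (h : Num S m n cov f) {u l : V} (hl : ∀ v ∈ S, 0 < m l v → v = u) {c : C}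
    (hc : cov c l) : f c u l = n l := by
  rw [h.symm, ← h.sum c l {u} (fun v hv => Finset.mem_singleton.2
    (hl v (h.mem _ _ _ hv) (hv.trans_le (h.le _ _ _)))) hc, Finset.sum_singleton]

theorem Num.split [DecidableEq V] (h : Num S m n cov f) {u l : V} {T : Finset V} (hT : l ∉ T)
    (hu : ∀ v ∈ S, 0 < m u v → v = l ∨ v ∈ T) {c : C} (hc : cov c u) :
    f c u l + ∑ v ∈ T, f c u v = n u := by
  rw [← Finset.sum_insert hT]
  exact h.sum c u _ (fun v hv => Finset.mem_insert.2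
    (hu v (h.mem _ _ _ hv) (hv.trans_le (h.le _ _ _)))) hc

theorem Num.leaf_dich (h : Num S m n cov f) {u l : V} (hl : ∀ v ∈ S, 0 < m l v → v = u) (c : C) :
    f c u l = 0 ∨ f c u l = n l := by
  rcases Nat.eq_zero_or_pos (f c u l) with e | e
  · exact Or.inl e
  · exact Or.inr (h.leaf hl (h.cov_of c l u (h.symm c u l ▸ e)))

/-- Bounds at a vertex with a pendant neighbour. -/
theorem Num.pendant [DecidableEq V] (h : Num S m n cov f) {u l : V} {T : Finset V} (huS : u ∈ S)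
    (hlS : l ∈ S) (hne : u ≠ l) (hT : l ∉ T) (hl : ∀ v ∈ S, 0 < m l v → v = u)
    (hu : ∀ v ∈ S, 0 < m u v → v = l ∨ v ∈ T) (hm : 0 < m u l) :
    n l ≤ n u ∧ n u ≤ ∑ v ∈ T, m u v := by
  obtain ⟨c, hc⟩ := h.ex u huS l hlS hm
  have a1 := h.split hT hu (h.cov_of _ _ _ hc)
  have a2 := h.leaf_dich hl c
  have a3 := h.mul u huS l hlS
  have a4 : 0 < n l := Nat.pos_of_ne_zero fun e => by rw [e] at a3; omega
  refine ⟨by omega, ?_⟩
  obtain ⟨d, hd⟩ := h.sep u huS l hlS hne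
  have b1 : cov d l → cov d u := fun e => h.cov_of d u l (by rw [h.leaf hl e]; exact a4)
  have b2 : cov d u := by tauto
  have b3 : f d u l = 0 := by
    by_contra e
    exact hd (iff_of_true b2 (h.cov_of d l u (by rw [h.symm]; omega)))
  rw [← h.split hT hu b2, b3, zero_add]
  exact Finset.sum_le_sum fun v _ => h.le _ _ _

/-- A vertex whose pendant edge has multiplicity the square of the rest of its degree uses all its
other edges as soon as it uses one of them. -/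
theorem Num.all [DecidableEq V] (h : Num S m n cov f) {u l : V} {T : Finset V} (huS : u ∈ S)
    (hlS : l ∈ S) (hne : u ≠ l) (hT : l ∉ T) (hl : ∀ v ∈ S, 0 < m l v → v = u)
    (hu : ∀ v ∈ S, 0 < m u v → v = l ∨ v ∈ T) (hm : m u l = (∑ v ∈ T, m u v) ^ 2)
    {c : C} {v : V} (hv : v ∈ T) (hc : 0 < f c u v) : ∀ z ∈ T, f c u z = m u z := by
  have a0 : f c u v ≤ ∑ v ∈ T, f c u v :=
    Finset.single_le_sum (f := fun v => f c u v) (fun _ _ => Nat.zero_le _) hv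
  have a1 : ∑ v ∈ T, f c u v ≤ ∑ v ∈ T, m u v := Finset.sum_le_sum fun v _ => h.le _ _ _
  obtain ⟨a2, a3⟩ := h.pendant huS hlS hne hT hl hu (by rw [hm]; exact pow_pos (by omega) 2)
  have a4 := h.mul u huS l hlS
  have a5 : ∑ v ∈ T, m u v ≤ n l := by
    by_contra e
    have : n u * n l < (∑ v ∈ T, m u v) * ∑ v ∈ T, m u v :=
      Nat.mul_lt_mul_of_le_of_lt a3 (by omega) (by omega)
    rw [hm, sq] at a4
    omega
  have a6 := h.split hT hu (h.cov_of _ _ _ hc)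
  have a7 := h.leaf_dich hl c
  exact (Finset.sum_eq_sum_iff_of_le fun v _ => h.le c u v).1 (by omega)

end Pool.Agent.MP_aaf698_co

end

-- part MP_aaf698_co.Gadget
section

namespace Pool.Agent.MP_aaf698_co

open Function Set

abbrev Vx : Type := ℕ × ℕ × ℕ

/-- The vertices of the gadget. -/
def InS (M : ℕ) (Q : List (ℕ × ℕ)) (u : Vx) : Prop :=
  (u.1 ≤ 2 ∧ u.2.1 ≤ 3 * M ∧ u.2.2 = 0) ∨ ((u.1 = 3 ∨ u.1 = 4) ∧ u.2.1 < M ∧ u.2.2 = 0) ∨
    (u.1 = 5 ∧ u.2 ∈ Q)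

/-- The edges from the vertex `(0, a, 0)` to the vertices other than its pendant neighbour. -/
def b0 (M a : ℕ) (z : Vx) : ℕ :=
  if z.1 = 2 then (if z.2.1 = a then 1 else 0)
  else if z.1 = 3 then (if a = 3 * M then 5 else if a / 3 = z.2.1 then 1 else 0)
  else if z.1 = 5 then (if z.2.1 = a ∨ z.2.2 = a then 1 else 0) else 0

def dm (M : ℕ) (d : ℕ → ℕ) (u v : Vx) : ℕ :=
  if u.1 = 0 then (if v = (1, u.2) then d u.2.1 ^ 2 else b0 M u.2.1 v)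
  else if u.1 = 3 then (if v = (4, u.2) then 25 else 0) else 0

def gm (M : ℕ) (d : ℕ → ℕ) (u v : Vx) : ℕ := dm M d u v + dm M d v u

/-- The selection problem. -/
def Sel (M : ℕ) (Q : List (ℕ × ℕ)) : Prop :=
  ∃ s : ℕ → ℕ, (∀ c < M, s c / 3 = c) ∧ ∀ c < M, ∀ c' < M, (s c, s c') ∉ Q

theorem inS_cases {M : ℕ} {Q : List (ℕ × ℕ)} {u : Vx} (h : InS M Q u) :
    (∃ a ≤ 3 * M, u = (0, a, 0)) ∨ (∃ a ≤ 3 * M, u = (1, a, 0)) ∨ (∃ a ≤ 3 * M, u = (2, a, 0)) ∨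
    (∃ c < M, u = (3, c, 0)) ∨ (∃ c < M, u = (4, c, 0)) ∨ ∃ p q, (p, q) ∈ Q ∧ u = (5, p, q) := by
  obtain ⟨i, a, b⟩ := u
  rcases h with ⟨h1, h2, h3⟩ | ⟨h1, h2, h3⟩ | ⟨h1, h2⟩ <;> simp only at h1 h2
  · simp only at h3
    subst h3
    interval_cases i <;> simp [h2]
  · simp only at h3
    subst h3
    rcases h1 with rfl | rfl <;> simp [h2]
  · subst h1
    simp [h2]

theorem sel_of_core {M : ℕ} {Q : List (ℕ × ℕ)} (hQ : ∀ p ∈ Q, p.1 < p.2 ∧ p.2 < 3 * M)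
    {T : Finset Vx} (hT : ∀ u, u ∈ T ↔ InS M Q u)
    (h : HasCore {u | InS M Q u} (gm M fun a => ∑ z ∈ T, b0 M a z)) : Sel M Q := by
  classical
  obtain ⟨C, n, cov, f, h⟩ := h.num
  set d : ℕ → ℕ := fun a => ∑ z ∈ T, b0 M a z with hd
  have gB : ∀ a z, z ≠ (1, a, 0) → gm M d (0, a, 0) z = b0 M a z := fun a z hz => by
    simp [gm, dm, hz, show ∀ b, b0 M b (0, a, 0) = 0 from fun b => by simp [b0]]
  have act : ∀ a ≤ 3 * M, ∀ c v, v ≠ (1, a, 0) → 0 < f c (0, a, 0) v → ∀ z, InS M Q z →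
      z ≠ (1, a, 0) → f c (0, a, 0) z = b0 M a z := fun a ha c v hv hf z hz hz' => by
    rw [← gB a z hz']
    refine h.all (l := (1, a, 0)) (T := T.erase (1, a, 0)) (v := v) (by simp [InS, ha])
      (by simp [InS, ha]) (by simp) (by simp) ?_ ?_ ?_ ?_ hf z ?_
    · intro v hv
      rcases inS_cases hv with ⟨b, -, rfl⟩ | ⟨b, -, rfl⟩ | ⟨b, -, rfl⟩ | ⟨b, -, rfl⟩ |
        ⟨b, -, rfl⟩ | ⟨p, q, -, rfl⟩ <;> simp [gm, dm, b0]
      intro e
      by_contra e'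
      simp [Ne.symm e'] at e
    · intro v hv _
      by_cases e : v = (1, a, 0)
      · exact Or.inl e
      · exact Or.inr (Finset.mem_erase.2 ⟨e, (hT v).2 hv⟩)
    · rw [Finset.sum_congr rfl fun z hz => gB a z (Finset.mem_erase.1 hz).1,
        Finset.sum_erase _ (by simp [b0])]
      simp [gm, dm, hd]
    · exact Finset.mem_erase.2 ⟨hv, (hT v).2 (h.mem _ _ _ hf)⟩
    · exact Finset.mem_erase.2 ⟨hz', (hT z).2 hz⟩
  have hy : ∀ a ≤ 3 * M, ∀ c, cov c (2, a, 0) ↔ 0 < f c (0, a, 0) (2, a, 0) := fun a ha c => by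
    refine ⟨fun hc => ?_, fun hc => h.cov_of c _ (0, a, 0) (h.symm c _ _ ▸ hc)⟩
    have e := h.mul (0, a, 0) (by simp [InS, ha]) (2, a, 0) (by simp [InS, ha])
    rw [gB _ _ (by simp)] at e
    rw [h.leaf (u := (0, a, 0)) _ hc]
    · refine Nat.pos_of_ne_zero fun e' => ?_
      simp [e', b0] at e
    · intro v hv
      rcases inS_cases hv with ⟨b, -, rfl⟩ | ⟨b, -, rfl⟩ | ⟨b, -, rfl⟩ | ⟨b, -, rfl⟩ |
        ⟨b, -, rfl⟩ | ⟨p, q, -, rfl⟩ <;> simp [gm, dm, b0]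
      intro e
      by_contra e'
      simp [Ne.symm e'] at e
  obtain ⟨c, hc⟩ := h.ex (0, 3 * M, 0) (by simp [InS]) (2, 3 * M, 0) (by simp [InS])
    (by rw [gB _ _ (by simp)]; simp [b0])
  have key : ∀ k < M, ∃ o, o / 3 = k ∧ 0 < f c (0, o, 0) (2, o, 0) := fun k hk => by
    by_contra hno
    push Not at hno
    have hv : InS M Q (3, k, 0) := by simp [InS, hk]
    have hl : InS M Q (4, k, 0) := by simp [InS, hk]
    have n1 : ∀ v ∈ {u | InS M Q u}, 0 < gm M d (4, k, 0) v → v = (3, k, 0) := fun v hv => by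
      rcases inS_cases hv with ⟨b, -, rfl⟩ | ⟨b, -, rfl⟩ | ⟨b, -, rfl⟩ | ⟨b, -, rfl⟩ |
        ⟨b, -, rfl⟩ | ⟨p, q, -, rfl⟩ <;> simp [gm, dm, b0]
      intro e
      by_contra e'
      simp [Ne.symm e'] at e
    let T' : Finset Vx := {(0, 3 * M, 0), (0, 3 * k, 0), (0, 3 * k + 1, 0), (0, 3 * k + 2, 0)}
    have sT : ∀ g : Vx → ℕ, ∑ z ∈ T', g z =
        g (0, 3 * M, 0) + (g (0, 3 * k, 0) + (g (0, 3 * k + 1, 0) + g (0, 3 * k + 2, 0))) :=
      fun g => by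
        rw [Finset.sum_insert, Finset.sum_insert, Finset.sum_pair] <;> simp
        omega
    have n2 : ∀ v ∈ {u | InS M Q u}, 0 < gm M d (3, k, 0) v → v = (4, k, 0) ∨ v ∈ T' :=
      fun v hv => by
        rcases inS_cases hv with ⟨b, -, rfl⟩ | ⟨b, -, rfl⟩ | ⟨b, -, rfl⟩ | ⟨b, -, rfl⟩ |
          ⟨b, -, rfl⟩ | ⟨p, q, -, rfl⟩ <;> simp [gm, dm, b0, T']
        · split_ifs <;> omega
        · intro e
          by_contra e'
          simp [e'] at e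
    have nT : (4, k, 0) ∉ T' := by simp [T']
    have g0 : gm M d (3, k, 0) (4, k, 0) = 25 := by simp [gm, dm]
    have g1 : gm M d (3, k, 0) (0, 3 * M, 0) = 5 := by simp [gm, dm, b0]
    have g2 : ∀ o, o / 3 = k → gm M d (3, k, 0) (0, o, 0) = 1 := fun o ho => by
      simp [gm, dm, b0, ho, show o ≠ 3 * M by omega]
    obtain ⟨p1, p2⟩ := h.pendant hv hl (by simp) nT n1 n2 (by omega)
    rw [sT, g1, g2 _ (by omega), g2 _ (by omega), g2 _ (by omega)] at p2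
    have p3 := h.mul _ hv _ hl
    rw [g0] at p3
    have z : ∀ o, o / 3 = k → f c (3, k, 0) (0, o, 0) = 0 := fun o ho => by
      by_contra e
      have := act o (by omega) c (3, k, 0) (by simp) (by rw [h.symm]; omega) (2, o, 0)
        (by simp [InS]; omega) (by simp)
      have := hno o ho
      simp [b0] at *
      omega
    have a5 : ∀ c v, v ≠ (1, 3 * M, 0) → 0 < f c (0, 3 * M, 0) v →
        f c (3, k, 0) (0, 3 * M, 0) = 5 := fun c v e1 e2 => by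
      rw [h.symm, act _ le_rfl c v e1 e2 _ hv (by simp)]
      simp [b0]
    have q1 := a5 c _ (by simp) hc
    have q2 := h.split nT n2 (h.cov_of c _ (0, 3 * M, 0) (by omega))
    rw [sT, q1, z _ (by omega), z _ (by omega), z _ (by omega)] at q2
    have q3 := h.leaf_dich n1 c
    have q4 : n (3, k, 0) = 5 ∧ n (4, k, 0) = 5 := by
      rcases q3 with q3 | q3
      · refine ⟨by omega, ?_⟩
        rw [show n (3, k, 0) = 5 by omega] at p3
        omega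
      · have : n (3, k, 0) * n (4, k, 0) ≤ 8 * 3 := Nat.mul_le_mul (by omega) (by omega)
        omega
    obtain ⟨c', hc'⟩ := h.ex _ hv (0, 3 * k, 0) (by simp [InS]; omega)
      (by rw [g2 _ (by omega)]; omega)
    have r1 := h.split nT n2 (h.cov_of _ _ _ hc')
    rw [sT] at r1
    have r2 := h.leaf_dich n1 c'
    have r3 := a5 c' (3, k, 0) (by simp)
    rw [h.symm c' (0, 3 * M, 0)] at r3
    have r4 := h.le c' (3, k, 0) (0, 3 * k, 0)
    have r5 := h.le c' (3, k, 0) (0, 3 * k + 1, 0)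
    have r6 := h.le c' (3, k, 0) (0, 3 * k + 2, 0)
    rw [g2 _ (by omega)] at r4 r5 r6
    omega
  choose! s hs1 hs2 using key
  refine ⟨s, hs1, fun k hk k' hk' hq => ?_⟩
  obtain ⟨q1, q2⟩ := hQ _ hq
  have a1 := hs2 k hk
  have a2 := hs2 k' hk'
  generalize s k = p at *
  generalize s k' = q at *
  simp only at q1 q2
  have hw : InS M Q (5, p, q) := by simp [InS, hq]
  have sw : ∀ c, cov c (5, p, q) → f c (0, p, 0) (5, p, q) + f c (0, q, 0) (5, p, q) =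
      n (5, p, q) := fun c hc => by
    rw [← h.sum c _ {(0, p, 0), (0, q, 0)} _ hc, Finset.sum_pair (by simp; omega),
      h.symm c (0, p, 0), h.symm c (0, q, 0)]
    intro v hv
    have e := hv.trans_le (h.le _ _ _)
    revert e
    rcases inS_cases (h.mem _ _ _ hv) with ⟨b, -, rfl⟩ | ⟨b, -, rfl⟩ | ⟨b, -, rfl⟩ | ⟨b, -, rfl⟩ |
      ⟨b, -, rfl⟩ | ⟨p, q, -, rfl⟩ <;> simp [gm, dm, b0]
    split_ifs <;> omega
  have b1 : ∀ c, 0 < f c (0, p, 0) (2, p, 0) → f c (0, p, 0) (5, p, q) = 1 := fun c e => by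
    rw [act p (by omega) c _ (by simp) e _ hw (by simp)]
    simp [b0]
  have b2 : f c (0, q, 0) (5, p, q) = 1 := by
    rw [act q (by omega) c _ (by simp) a2 _ hw (by simp)]
    simp [b0]
  have b3 := sw c (h.cov_of c _ (0, q, 0) (by rw [h.symm]; omega))
  rw [b1 c a1, b2] at b3
  obtain ⟨c', hc'⟩ := h.sep (2, p, 0) (by simp [InS]; omega) _ hw (by simp)
  rw [hy p (by omega)] at hc'
  refine hc' ⟨fun e => h.cov_of c' _ (0, p, 0) (by rw [h.symm, b1 c' e]; omega), fun e => ?_⟩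
  have b4 := sw c' e
  have b5 := h.le c' (0, q, 0) (5, p, q)
  rw [gB _ _ (by simp)] at b5
  rw [act p (by omega) c' (5, p, q) (by simp) (by simp [b0] at b5; omega) _
    (by simp [InS]; omega) (by simp)]
  simp [b0]

end Pool.Agent.MP_aaf698_co

end

-- part MP_aaf698_co.Complete
section

namespace Pool.Agent.MP_aaf698_co

open Function Set

theorem core_of_dir {V X C : Type} {S : Set V} {W : Set X} {π : X → V} (D : C → X → X → Prop)
    (e : V → V → ℕ) (cv : C → V → Prop) (fin : W.Finite) (img : π '' W = S)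
    (mem : ∀ c x y, D c x y → x ∈ W ∧ y ∈ W) (f1 : ∀ c x y z, D c x y → D c x z → y = z)
    (f2 : ∀ c x y z, D c x z → D c y z → x = y) (f3 : ∀ c x y z, D c x y → ¬ D c y z)
    (hcv : ∀ c, ∀ x ∈ W, (∃ z, D c x z ∨ D c z x) ↔ cv c (π x))
    (sep : ∀ u ∈ S, ∀ v ∈ S, (∀ c, cv c u ↔ cv c v) → u = v)
    (count : ∀ u ∈ S, ∀ v ∈ S,
      {p : X × X | π p.1 = u ∧ π p.2 = v ∧ ∃ c, D c p.1 p.2}.ncard = e u v)
    (asym : ∀ u v, e u v = 0 ∨ e v u = 0) :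
    Core S (fun u v => e u v + e v u) W π (fun c x y => D c x y ∨ D c y x) where
  fin := fin
  mem := fun c x y h => h.elim (fun h => (mem _ _ _ h).1) fun h => (mem _ _ _ h).2
  symm := fun _ _ _ h => h.symm
  func := by
    rintro c x y z (a | a) (b | b)
    · exact f1 _ _ _ _ a b
    · exact absurd a (f3 _ _ _ _ b)
    · exact absurd b (f3 _ _ _ _ a)
    · exact f2 _ _ _ _ a b
  img := img
  pal := fun x hx y hy => by
    simp only [hcv _ x hx, hcv _ y hy]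
    exact ⟨fun e c => by rw [e], sep _ (img ▸ mem_image_of_mem _ hx) _ (img ▸ mem_image_of_mem _ hy)⟩
  count := fun u hu v hv => by
    have fin' : ∀ u v, {p : X × X | π p.1 = u ∧ π p.2 = v ∧ ∃ c, D c p.1 p.2}.Finite :=
      fun u v => (fin.prod fin).subset fun p ⟨_, _, c, hc⟩ => mem _ _ _ hc
    have e1 : {p : X × X | π p.1 = u ∧ π p.2 = v ∧ ∃ c, D c p.1 p.2 ∨ D c p.2 p.1} =
        {p : X × X | π p.1 = u ∧ π p.2 = v ∧ ∃ c, D c p.1 p.2} ∪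
          Prod.swap '' {p : X × X | π p.1 = v ∧ π p.2 = u ∧ ∃ c, D c p.1 p.2} := by
      ext ⟨x, y⟩
      constructor
      · rintro ⟨a, b, c, h | h⟩
        · exact Or.inl ⟨a, b, c, h⟩
        · exact Or.inr ⟨(y, x), ⟨b, a, c, h⟩, rfl⟩
      · rintro (⟨a, b, c, h⟩ | ⟨p, ⟨a, b, c, h⟩, e⟩)
        · exact ⟨a, b, c, Or.inl h⟩
        · rw [← e]
          exact ⟨b, a, c, Or.inr h⟩
    rw [e1, ncard_union_eq _ (fin' u v) ((fin' v u).image _),
      ncard_image_of_injective _ Prod.swap_injective, count u hu v hv, count v hv u hu]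
    rcases asym u v with h | h
    · rw [← count u hu v hv, ncard_eq_zero (fin' _ _)] at h
      simp [h]
    · rw [← count v hv u hu, ncard_eq_zero (fin' _ _)] at h
      simp [h]

variable (M : ℕ) (Q : List (ℕ × ℕ))

/-- The copies of a vertex. -/
def Cp (u : Vx) (t : Vx × ℕ) : Prop :=
  InS M Q u ∧ if u.1 ≤ 1 then InS M Q t.1 ∧ t.2 < b0 M u.2.1 t.1
    else t.1 = 0 ∧ t.2 < if u.1 = 3 then 6 else if u.1 = 4 then 5 else 1

def port (a : ℕ) (t : Vx × ℕ) : Vx × ℕ :=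
  (0, if t.1.1 = 3 then (if a = 3 * M then t.2 else 5) else 0)

def nx (u : Vx) : Vx := (u.1 + 1, u.2)

def EE (A : Set ℕ) (x y : Vx × Vx × ℕ) : Prop :=
  ∃ a ∈ A, ∃ t, Cp M Q (0, a, 0) t ∧ x = ((0, a, 0), t) ∧ y = (t.1, port M a t)

def PE (u : Vx) (σ : Equiv.Perm (Vx × ℕ)) (x y : Vx × Vx × ℕ) : Prop :=
  ∃ t, Cp M Q (nx u) t ∧ x = (u, t) ∧ y = (nx u, σ t)

def Good (s : ℕ → ℕ) (c : Set ℕ × Vx × Equiv.Perm (Vx × ℕ)) : Prop :=
  (∀ t, Cp M Q (nx c.2.1) (c.2.2 t) ↔ Cp M Q (nx c.2.1) t) ∧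
  ((c.1 = ∅ ∧ c.2.1.1 = 0) ∨ (∃ o < 3 * M, c.1 = {o} ∧ c.2.1 = (3, o / 3, 0)) ∨
    (c.1 = {a | a = 3 * M ∨ ∃ k < M, s k = a} ∧ c.2.1 = (7, 0, 0)))

variable {M Q}

theorem b0_pos {a : ℕ} {z : Vx} (h : 0 < b0 M a z) : z.1 = 2 ∨ z.1 = 3 ∨ z.1 = 5 := by
  unfold b0 at h
  split_ifs at h <;> omega

theorem dm_pos (d : ℕ → ℕ) (u v : Vx) (h : 0 < dm M d u v) :
    (u.1 = 0 ∧ v.1 ≠ 0 ∧ v.1 ≠ 4) ∨ (u.1 = 3 ∧ v.1 = 4) := by
  unfold dm at h
  split_ifs at h with h1 h2 h3 h4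
  · simp [h1, h2]
  · have := b0_pos h
    omega
  · simp [h3, h4]
  all_goals omega

theorem cp_zero {a : ℕ} {t : Vx × ℕ} :
    Cp M Q (0, a, 0) t ↔ a ≤ 3 * M ∧ InS M Q t.1 ∧ t.2 < b0 M a t.1 := by
  simp [Cp, InS]

theorem cp_nx {u : Vx} {t : Vx × ℕ} (hu : u.1 = 0 ∨ u.1 = 3) (h : Cp M Q (nx u) t) :
    Cp M Q u t := by
  obtain ⟨i, a, b⟩ := u
  rcases hu with hu | hu <;> simp only at hu <;> subst hu <;> simp [Cp, InS, nx] at h ⊢
  · exact h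
  · exact ⟨h.1, h.2.1, by omega⟩

theorem cp_port {a : ℕ} {t : Vx × ℕ} (h : Cp M Q (0, a, 0) t) : Cp M Q t.1 (port M a t) := by
  obtain ⟨h1, h2, h3⟩ := cp_zero.1 h
  refine ⟨h2, ?_⟩
  obtain ⟨⟨i, b, e⟩, j⟩ := t
  rcases b0_pos (Nat.zero_lt_of_lt h3) with e | e | e <;> simp only at e <;> subst e <;>
    simp [port, b0] at h3 ⊢
  split_ifs at h3 ⊢ <;> omega

theorem sep_aux (hQ : ∀ p ∈ Q, p.1 < p.2 ∧ p.2 < 3 * M) {u v : Vx} (hu : InS M Q u)
    (hv : InS M Q v)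
    (h1 : ∀ a ≤ 3 * M, (u = (0, a, 0) ∨ u = (1, a, 0)) ↔ (v = (0, a, 0) ∨ v = (1, a, 0)))
    (h2 : ∀ o < 3 * M, ((u = (0, o, 0) ∨ 0 < b0 M o u) ∨ u = (3, o / 3, 0) ∨ u = (4, o / 3, 0))
        ↔ ((v = (0, o, 0) ∨ 0 < b0 M o v) ∨ v = (3, o / 3, 0) ∨ v = (4, o / 3, 0)))
    (h4 : (u = (0, 3 * M, 0) ∨ u.1 = 3) → v.1 ≠ 1 ∧ v.1 ≠ 4)
    (h5 : (v = (0, 3 * M, 0) ∨ v.1 = 3) → u.1 ≠ 1 ∧ u.1 ≠ 4) : u = v := by
  have hQ' : ∀ p q, (p, q) ∈ Q → p < q ∧ q < 3 * M := fun p q e => hQ _ e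
  have pq : ∀ {p : Prop} [Decidable p], (0 < if p then 1 else 0) ↔ p := fun {p} _ => by
    split_ifs with h <;> simp [h]
  have p5 : ∀ o < 3 * M, ∀ k, (0 < if o = 3 * M then 5 else if o / 3 = k then 1 else 0) ↔
      o / 3 = k := fun o ho k => by rw [if_neg ho.ne, pq]
  rcases inS_cases hu with ⟨a, ha, rfl⟩ | ⟨a, ha, rfl⟩ | ⟨a, ha, rfl⟩ | ⟨a, ha, rfl⟩ |
    ⟨a, ha, rfl⟩ | ⟨a, b, ha, rfl⟩ <;>
  rcases inS_cases hv with ⟨a', ha', rfl⟩ | ⟨a', ha', rfl⟩ | ⟨a', ha', rfl⟩ | ⟨a', ha', rfl⟩ |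
    ⟨a', ha', rfl⟩ | ⟨a', b', ha', rfl⟩ <;>
  simp +contextual [b0, pq, p5] at h1 h2 h4 h5 ⊢
  all_goals
    try have := hQ' _ _ ha
    try have := hQ' _ _ ha'
    first
    | (have := h1 a; have := h1 a'; omega)
    | (have := h1 a; have := h1 a'; have := h2 a; have := h2 a'; omega)
    | (have := h2 a; have := h2 a'; omega)
    | (have := h2 (3 * a); have := h2 (3 * a + 1); have := h2 (3 * a + 2); omega)
    | (have := h2 (3 * a'); have := h2 (3 * a' + 1); have := h2 (3 * a' + 2); omega)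
    | (have := h2 a'; have := h2 b'; omega)
    | (have := h2 a; have := h2 b; omega)

theorem core_of_sel (hQ : ∀ p ∈ Q, p.1 < p.2 ∧ p.2 < 3 * M)
    {T : Finset Vx} (hT : ∀ u, u ∈ T ↔ InS M Q u) (h : Sel M Q) :
    HasCore {u | InS M Q u} (gm M fun a => ∑ z ∈ T, b0 M a z) := by
  classical
  obtain ⟨s, hs1, hs2⟩ := h
  have b6 : ∀ a z, b0 M a z ≤ 5 := fun a z => by
    unfold b0
    split_ifs <;> omega
  have good3 : Good M Q s ({a | a = 3 * M ∨ ∃ k < M, s k = a}, (7, 0, 0), 1) :=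
    ⟨fun t => Iff.rfl, Or.inr (Or.inr ⟨rfl, rfl⟩)⟩
  have bad : ∀ t, ¬ Cp M Q (nx (7, 0, 0)) t := fun t => by simp [Cp, nx, InS]
  have u03 : ∀ c, Good M Q s c → ∀ t, Cp M Q (nx c.2.1) t → c.2.1.1 = 0 ∨ c.2.1.1 = 3 := by
    rintro c ⟨-, ⟨-, e⟩ | ⟨o, -, -, e⟩ | ⟨-, e⟩⟩ t ht
    · exact Or.inl e
    · exact Or.inr (by rw [e])
    · exact absurd (e ▸ ht) (bad t)
  have tgt : ∀ a t, Cp M Q (0, a, 0) t → t.1.1 = 2 ∨ t.1.1 = 3 ∨ t.1.1 = 5 := fun a t ht =>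
    b0_pos (Nat.zero_lt_of_lt (cp_zero.1 ht).2.2)
  have ep : ∀ c : {c // Good M Q s c}, ∀ a ∈ c.1.1, (0, a, 0) ≠ c.1.2.1 := by
    rintro ⟨c, hc⟩ a ha
    simp only at ha ⊢
    obtain ⟨-, ⟨e, -⟩ | ⟨o, -, -, e⟩ | ⟨-, e⟩⟩ := hc
    · simp [e] at ha
    · simp [e]
    · simp [e]
  have compat : ∀ c : {c // Good M Q s c}, ∀ a ∈ c.1.1, ∀ a' ∈ c.1.1, ∀ t t', Cp M Q (0, a, 0) t →
      Cp M Q (0, a', 0) t' → t.1 = t'.1 → port M a t = port M a' t' → a = a' ∧ t = t' := by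
    rintro c a ha a' ha' ⟨z, i⟩ ⟨z', i'⟩ ht ht' (rfl : z = z') e
    have A : ∀ k < M, ∀ k' < M, ∀ p q, (p, q) ∈ Q → ¬ (s k = p ∧ s k' = q) := by
      rintro k hk k' hk' _ _ e ⟨rfl, rfl⟩
      exact hs2 k hk k' hk' e
    have B : a = a' ∨ ((a = 3 * M ∨ ∃ k < M, s k = a) ∧ (a' = 3 * M ∨ ∃ k < M, s k = a')) := by
      obtain ⟨-, ⟨e, -⟩ | ⟨o, -, e, -⟩ | ⟨e, -⟩⟩ := c.2 <;> rw [e] at ha ha'
      · exact ha.elim
      · exact Or.inl (ha.trans ha'.symm)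
      · exact Or.inr ⟨ha, ha'⟩
    obtain ⟨h1, h2, h3⟩ := cp_zero.1 ht
    obtain ⟨h4, -, h5⟩ := cp_zero.1 ht'
    simp only [Prod.mk.injEq, true_and]
    rcases inS_cases h2 with ⟨b, _, rfl⟩ | ⟨b, _, rfl⟩ | ⟨b, _, rfl⟩ | ⟨b, _, rfl⟩ |
      ⟨b, _, rfl⟩ | ⟨p, q, hpq, rfl⟩ <;> simp [b0, port] at h3 h5 e
    · split_ifs at h3 h5 <;> omega
    · rcases B with rfl | ⟨rfl | ⟨k, hk, rfl⟩, rfl | ⟨k', hk', rfl⟩⟩
      · split_ifs at h3 h5 e <;> omega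
      · split_ifs at h3 h5 e <;> omega
      · have := hs1 k' hk'
        split_ifs at h3 h5 e <;> omega
      · have := hs1 k hk
        split_ifs at h3 h5 e <;> omega
      · have := hs1 k hk
        have := hs1 k' hk'
        obtain rfl : k = k' := by split_ifs at h3 h5 e <;> omega
        split_ifs at h3 h5 e <;> omega
    · have := hQ _ hpq
      simp only at this
      rcases B with rfl | ⟨rfl | ⟨k, hk, rfl⟩, rfl | ⟨k', hk', rfl⟩⟩
      · split_ifs at h3 h5 <;> omega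
      · split_ifs at h3 h5 <;> omega
      · split_ifs at h3 h5 <;> omega
      · split_ifs at h3 h5 <;> omega
      · have := A k hk k' hk' p q hpq
        have := A k' hk' k hk p q hpq
        split_ifs at h3 h5 <;> omega
  refine ⟨Vx × Vx × ℕ, {c // Good M Q s c}, {x | Cp M Q x.1 x.2}, Prod.fst, _,
    core_of_dir (fun c x y => EE M Q c.1.1 x y ∨ PE M Q c.1.2.1 c.1.2.2 x y) (dm M _)
      (fun c w => (∃ a ∈ c.1.1, w = (0, a, 0) ∨ 0 < b0 M a w) ∨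
        (InS M Q (nx c.1.2.1) ∧ (w = c.1.2.1 ∨ w = nx c.1.2.1)))
      ?_ ?_ ?_ ?_ ?_ ?_ ?_ ?_ ?_ ?_⟩
  · refine (T.finite_toSet.prod (((T.finite_toSet.insert 0).prod (finite_Iio 6)))).subset ?_
    rintro ⟨u, z, i⟩ ⟨h1, h2⟩
    refine ⟨(hT u).2 h1, ?_⟩
    split_ifs at h2
    · exact ⟨Or.inr ((hT z).2 h2.1), h2.2.trans_le ((b6 _ _).trans (by omega))⟩
    all_goals exact ⟨Or.inl h2.1, h2.2.trans_le (by omega)⟩
  · refine Subset.antisymm (by rintro _ ⟨x, hx, rfl⟩; exact hx.1) fun u hu => ?_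
    by_cases e : u.1 ≤ 1
    · refine ⟨(u, (2, u.2.1, 0), 0), ⟨hu, ?_⟩, rfl⟩
      rw [if_pos e]
      simp only [mem_ofPred_eq, InS] at hu
      simp only [InS, b0]
      simp
      omega
    · refine ⟨(u, 0, 0), ⟨hu, ?_⟩, rfl⟩
      simp only [e, if_false, true_and]
      split_ifs <;> omega
  · rintro c x y (⟨a, -, t, ht, rfl, rfl⟩ | ⟨t, ht, rfl, rfl⟩)
    · exact ⟨ht, cp_port ht⟩
    · exact ⟨cp_nx (u03 _ c.2 _ ht) ht, (c.2.1 t).2 ht⟩
  · rintro c x y z (⟨a, ha, t, ht, rfl, rfl⟩ | ⟨t, ht, rfl, rfl⟩)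
      (⟨a', ha', t', ht', e, rfl⟩ | ⟨t', ht', e, rfl⟩) <;> simp only [Prod.mk.injEq] at e
    · rw [e.1.2.1, e.2]
    · exact (ep c a ha e.1).elim
    · exact (ep c a' ha' e.1.symm).elim
    · rw [e.2]
  · rintro c x y z (⟨a, ha, t, ht, rfl, rfl⟩ | ⟨t, ht, rfl, rfl⟩)
      (⟨a', ha', t', ht', rfl, e⟩ | ⟨t', ht', rfl, e⟩) <;> simp only [Prod.mk.injEq] at e
    · obtain ⟨rfl, rfl⟩ := compat c a ha a' ha' t t' ht ht' e.1 e.2
      rfl
    · have := tgt a t ht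
      have := u03 _ c.2 _ ht'
      simp only [e.1, nx] at *
      omega
    · have := tgt a' t' ht'
      have := u03 _ c.2 _ ht
      simp only [← e.1, nx] at *
      omega
    · rw [c.1.2.2.injective e.2]
  · rintro c x y z (⟨a, ha, t, ht, rfl, rfl⟩ | ⟨t, ht, rfl, rfl⟩)
      (⟨a', ha', t', ht', e, rfl⟩ | ⟨t', ht', e, rfl⟩) <;> simp only [Prod.mk.injEq] at e
    · have := tgt a t ht
      simp [e.1] at this
    · obtain ⟨-, ⟨e1, e2⟩ | ⟨o, ho, e1, e2⟩ | ⟨e1, e2⟩⟩ := c.2 <;> rw [e1] at ha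
      · exact ha
      · obtain rfl : a = o := ha
        rw [← e.2, e2] at ht'
        simp [Cp, port, nx, e.1, e2, ho.ne] at ht'
      · exact bad _ (e2 ▸ ht')
    · simp [nx] at e
    · simpa [nx] using congrArg Prod.fst e.1
  · rintro c ⟨w, t⟩ hx
    simp only [mem_ofPred_eq] at hx
    constructor
    · rintro ⟨z, (⟨a, ha, t, ht, e, -⟩ | ⟨t, ht, e, -⟩) | ⟨a, ha, t, ht, -, e⟩ | ⟨t, ht, -, e⟩⟩ <;>
        simp only [Prod.mk.injEq] at e
      · exact Or.inl ⟨a, ha, Or.inl e.1⟩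
      · exact Or.inr ⟨ht.1, Or.inl e.1⟩
      · exact Or.inl ⟨a, ha, Or.inr (e.1 ▸ Nat.zero_lt_of_lt (cp_zero.1 ht).2.2)⟩
      · exact Or.inr ⟨ht.1, Or.inr e.1⟩
    have hA : ∀ a ∈ c.1.1, a ≤ 3 * M := fun a ha => by
      obtain ⟨-, ⟨e, -⟩ | ⟨o, ho, e, -⟩ | ⟨e, -⟩⟩ := c.2 <;> rw [e] at ha
      · exact ha.elim
      · exact (show a = o from ha) ▸ ho.le
      · rcases ha with rfl | ⟨k, hk, rfl⟩
        · rfl
        · have := hs1 k hk
          omega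
    have key : ∀ a ∈ c.1.1, 0 < b0 M a w → ∃ z, (EE M Q c.1.1 (w, t) z ∨
        PE M Q c.1.2.1 c.1.2.2 (w, t) z) ∨ EE M Q c.1.1 z (w, t) ∨
        PE M Q c.1.2.1 c.1.2.2 z (w, t) := fun a ha hb => by
      have E : ∀ a ∈ c.1.1, ∀ i < b0 M a w, t = port M a (w, i) →
          EE M Q c.1.1 ((0, a, 0), w, i) (w, t) :=
        fun a ha i hi e => ⟨a, ha, (w, i), cp_zero.2 ⟨hA a ha, hx.1, hi⟩, rfl, by rw [e]⟩
      by_cases h3 : w.1 = 3
      · obtain ⟨i, k, e⟩ := w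
        obtain ⟨z, j⟩ := t
        simp only at h3
        subst h3
        obtain ⟨⟨hk, rfl⟩, rfl, hj⟩ : (k < M ∧ e = 0) ∧ z = 0 ∧ j < 6 := by
          simpa [Cp, InS] using hx
        obtain ⟨-, ⟨e1, e2⟩ | ⟨o, ho, e1, e2⟩ | ⟨e1, e2⟩⟩ := c.2
        · rw [e1] at ha
          exact ha.elim
        · have ha' := ha
          rw [e1] at ha'
          obtain rfl : a = o := ha'
          by_cases e : j = 5
          · exact ⟨_, Or.inr (Or.inl (E a ha 0 hb (by simp [port, ho.ne, e])))⟩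
          · obtain rfl : a / 3 = k := by
              by_contra e'
              simp [b0, ho.ne, e'] at hb
            exact ⟨_, Or.inl (Or.inr ⟨(0, j), by simp [e2, nx, Cp, InS, hk]; omega, by rw [e2],
              rfl⟩)⟩
        · by_cases e : j = 5
          · have := hs1 k hk
            have e3 : s k ≠ 3 * M := by omega
            exact ⟨_, Or.inr (Or.inl (E (s k) (e1 ▸ Or.inr ⟨k, hk, rfl⟩) 0
              (by simp [b0, e3, this]) (by simp [port, e3, e])))⟩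
          · exact ⟨_, Or.inr (Or.inl (E (3 * M) (e1 ▸ Or.inl rfl) j
              (by simp [b0]; omega) (by simp [port])))⟩
      · refine ⟨_, Or.inr (Or.inl (E a ha 0 hb ?_))⟩
        have := b0_pos hb
        have e := hx.2
        rw [if_neg (by omega), if_neg h3, if_neg (by omega)] at e
        simp only [port, h3, if_false]
        exact Prod.ext e.1 (by simpa using e.2)
    rintro (⟨a, ha, rfl | hb⟩ | ⟨hn, e | e⟩)
    · exact ⟨_, Or.inl (Or.inl ⟨a, ha, t, hx, rfl, rfl⟩)⟩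
    · exact key a ha hb
    · simp only at e
      obtain ⟨-, ⟨e1, e2⟩ | ⟨o, ho, e1, e2⟩ | ⟨e1, e2⟩⟩ := c.2
      · refine ⟨_, Or.inl (Or.inr ⟨t, ⟨hn, ?_⟩, by rw [e], rfl⟩)⟩
        simpa [nx, e, e2] using hx.2
      · exact key o (e1 ▸ rfl) (by simp [e, e2, b0, ho.ne])
      · simp [e2, nx, InS] at hn
    · simp only at e
      exact ⟨_, Or.inr (Or.inr ⟨c.1.2.2.symm t, (c.2.1 _).1 (by simpa [← e] using hx), rfl,
        by simp [e]⟩)⟩
  · intro u hu v hv H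
    have h1 : ∀ a ≤ 3 * M, (u = (0, a, 0) ∨ u = (1, a, 0)) ↔ (v = (0, a, 0) ∨ v = (1, a, 0)) :=
      fun a ha => by
        simpa [nx, InS, ha] using H ⟨(∅, (0, a, 0), 1), fun _ => Iff.rfl, Or.inl ⟨rfl, rfl⟩⟩
    have h2 : ∀ o < 3 * M, ((u = (0, o, 0) ∨ 0 < b0 M o u) ∨ u = (3, o / 3, 0) ∨ u = (4, o / 3, 0))
        ↔ ((v = (0, o, 0) ∨ 0 < b0 M o v) ∨ v = (3, o / 3, 0) ∨ v = (4, o / 3, 0)) :=
      fun o ho => by
        simpa [nx, InS, show o / 3 < M by omega] using H ⟨({o}, (3, o / 3, 0), 1),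
          fun _ => Iff.rfl, Or.inr (Or.inl ⟨o, ho, rfl, rfl⟩)⟩
    have h3 := H ⟨_, good3⟩
    simp only [nx, InS] at h3
    have a3 : ∀ w : Vx, (w = (0, 3 * M, 0) ∨ w.1 = 3) → ∃ a ∈ {a | a = 3 * M ∨ ∃ k < M, s k = a},
        w = (0, a, 0) ∨ 0 < b0 M a w := fun w hw =>
      ⟨3 * M, Or.inl rfl, hw.imp_right fun e => by simp [b0, e]⟩
    have b3 : ∀ w : Vx, (∃ a ∈ {a | a = 3 * M ∨ ∃ k < M, s k = a},
        w = (0, a, 0) ∨ 0 < b0 M a w) → w.1 ≠ 1 ∧ w.1 ≠ 4 := by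
      rintro w ⟨a, -, rfl | e⟩
      · simp
      · have := b0_pos e
        omega
    have h4 : (u = (0, 3 * M, 0) ∨ u.1 = 3) → v.1 ≠ 1 ∧ v.1 ≠ 4 := fun e =>
      b3 v ((h3.1 (Or.inl (a3 u e))).resolve_right (by simp))
    have h5 : (v = (0, 3 * M, 0) ∨ v.1 = 3) → u.1 ≠ 1 ∧ u.1 ≠ 4 := fun e =>
      b3 u ((h3.2 (Or.inl (a3 v e))).resolve_right (by simp))
    exact sep_aux hQ hu hv h1 h2 h4 h5
  · intro u hu v hv
    have U : ∀ x y, (∃ c : {c // Good M Q s c}, EE M Q c.1.1 x y ∨ PE M Q c.1.2.1 c.1.2.2 x y) ↔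
        EE M Q univ x y ∨ ((x.1.1 = 0 ∨ x.1.1 = 3) ∧ y.1 = nx x.1 ∧ Cp M Q y.1 x.2 ∧
          Cp M Q y.1 y.2) := fun x y => by
      constructor
      · rintro ⟨c, ⟨a, -, e⟩ | ⟨t, ht, rfl, rfl⟩⟩
        · exact Or.inl ⟨a, trivial, e⟩
        · exact Or.inr ⟨u03 _ c.2 _ ht, rfl, ht, (c.2.1 t).2 ht⟩
      rintro (⟨a, -, t, ht, e⟩ | ⟨e1, e2, e3, e4⟩)
      · rcases (cp_zero.1 ht).1.lt_or_eq with ha | ha
        · exact ⟨⟨({a}, (3, a / 3, 0), 1), fun _ => Iff.rfl, Or.inr (Or.inl ⟨a, ha, rfl, rfl⟩)⟩,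
            Or.inl ⟨a, rfl, t, ht, e⟩⟩
        · exact ⟨⟨_, good3⟩, Or.inl ⟨a, Or.inl ha, t, ht, e⟩⟩
      · obtain ⟨x, t⟩ := x
        obtain ⟨y, t'⟩ := y
        simp only at e1 e2 e3 e4
        subst e2
        have sw : ∀ r, Cp M Q (nx x) (Equiv.swap t t' r) ↔ Cp M Q (nx x) r := fun r => by
          rw [Equiv.swap_apply_def]
          split_ifs with a b
          · simp [a, e3, e4]
          · simp [b, e3, e4]
          · rfl
        rcases e1 with e1 | e1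
        · exact ⟨⟨(∅, x, Equiv.swap t t'), sw, Or.inl ⟨rfl, e1⟩⟩, Or.inr ⟨t, e3, rfl, by simp⟩⟩
        · obtain ⟨i, k, e⟩ := x
          simp only at e1
          subst e1
          obtain ⟨hk, rfl⟩ : k < M ∧ e = 0 := by simpa [nx, InS] using e3.1
          exact ⟨⟨({3 * k}, (3, k, 0), Equiv.swap t t'), sw, Or.inr (Or.inl
            ⟨3 * k, by omega, rfl, by simp⟩)⟩, Or.inr ⟨t, e3, rfl, by simp⟩⟩
    simp only [U]
    by_cases e : (u.1 = 0 ∨ u.1 = 3) ∧ v = nx u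
    · have e1 : {p : (Vx × Vx × ℕ) × Vx × Vx × ℕ | p.1.1 = u ∧ p.2.1 = v ∧ (EE M Q univ p.1 p.2 ∨
          ((p.1.1.1 = 0 ∨ p.1.1.1 = 3) ∧ p.2.1 = nx p.1.1 ∧ Cp M Q p.2.1 p.1.2 ∧
          Cp M Q p.2.1 p.2.2))} = (fun p => ((u, p.1), (v, p.2))) ''
          ({t | Cp M Q v t} ×ˢ {t | Cp M Q v t}) := by
        ext ⟨⟨x, t⟩, y, t'⟩
        constructor
        · rintro ⟨rfl, rfl, ⟨a, -, r, hr, e1, e2⟩ | ⟨-, -, e3, e4⟩⟩
          · have := tgt a r hr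
            simp only [Prod.mk.injEq] at e1 e2
            simp only [e1.1, ← e2.1, nx] at e this
            simp [e.2] at this
          · exact ⟨(t, t'), ⟨e3, e4⟩, rfl⟩
        · rintro ⟨p, ⟨e3, e4⟩, e5⟩
          rw [← e5]
          exact ⟨rfl, rfl, Or.inr ⟨e.1, e.2, e3, e4⟩⟩
      rw [e1, ncard_image_of_injective _ (fun p q e => by simpa [Prod.ext_iff] using e),
        ncard_prod]
      obtain ⟨e2, rfl⟩ := e
      rcases inS_cases hu with ⟨a, ha, rfl⟩ | ⟨a, ha, rfl⟩ | ⟨a, ha, rfl⟩ | ⟨a, ha, rfl⟩ |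
        ⟨a, ha, rfl⟩ | ⟨a, b, ha, rfl⟩ <;> simp at e2
      · have : {t | Cp M Q (nx (0, a, 0)) t} =
            ↑(T.biUnion fun z => {z} ×ˢ Finset.range (b0 M a z)) := by
          ext ⟨z, i⟩
          simp [Cp, nx, InS, ha, hT, and_comm]
        rw [this, ncard_coe_finset, Finset.card_biUnion]
        · simp [dm, nx, sq]
        · intro z _ z' _ e
          exact Finset.disjoint_product.2 (Or.inl (Finset.disjoint_singleton.2 e))
      · have : {t | Cp M Q (nx (3, a, 0)) t} = ↑(({0} : Finset Vx) ×ˢ Finset.range 5) := by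
          ext ⟨z, i⟩
          simp [Cp, nx, InS, ha, and_comm, eq_comm]
        rw [this, ncard_coe_finset]
        simp [dm, nx]
    · by_cases e0 : u.1 = 0
      · obtain ⟨a, ha, rfl⟩ : ∃ a ≤ 3 * M, u = (0, a, 0) := by
          rcases inS_cases hu with h | ⟨a, ha, rfl⟩ | ⟨a, ha, rfl⟩ | ⟨a, ha, rfl⟩ |
            ⟨a, ha, rfl⟩ | ⟨a, b, ha, rfl⟩
          · exact h
          all_goals simp at e0
        have e1 : {p : (Vx × Vx × ℕ) × Vx × Vx × ℕ | p.1.1 = (0, a, 0) ∧ p.2.1 = v ∧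
            (EE M Q univ p.1 p.2 ∨ ((p.1.1.1 = 0 ∨ p.1.1.1 = 3) ∧ p.2.1 = nx p.1.1 ∧
            Cp M Q p.2.1 p.1.2 ∧ Cp M Q p.2.1 p.2.2))} =
            (fun i => (((0, a, 0), v, i), (v, port M a (v, i)))) '' Iio (b0 M a v) := by
          ext ⟨⟨x, t⟩, y, t'⟩
          constructor
          · rintro ⟨rfl, rfl, ⟨a', -, r, hr, e1, e2⟩ | ⟨e3, e4, -⟩⟩
            · simp only [Prod.mk.injEq, true_and, and_true] at e1 e2
              obtain ⟨rfl, rfl⟩ := e1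
              obtain ⟨rfl, rfl⟩ := e2
              exact ⟨t.2, (cp_zero.1 hr).2.2, rfl⟩
            · exact absurd ⟨e3, e4⟩ e
          · rintro ⟨i, hi, e5⟩
            rw [← e5]
            exact ⟨rfl, rfl, Or.inl ⟨a, trivial, (v, i), cp_zero.2 ⟨ha, hv, hi⟩, rfl, rfl⟩⟩
        rw [e1, ncard_image_of_injective _ (fun p q e => by simpa using congrArg (·.1.2.2) e)]
        simp only [nx] at e
        simp at e
        simp [dm, e]
      · have : dm M (fun a => ∑ z ∈ T, b0 M a z) u v = 0 := by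
          unfold dm
          rw [if_neg e0]
          split_ifs with a b
          · exact absurd ⟨Or.inr a, by rw [b, nx, a]⟩ e
          all_goals rfl
        rw [this]
        refine (congrArg ncard (eq_empty_of_forall_notMem ?_)).trans (ncard_empty _)
        rintro ⟨x, y⟩ ⟨rfl, rfl, ⟨a', -, r, hr, e1, e2⟩ | ⟨e3, e4, -⟩⟩
        · exact e0 (by rw [e1])
        · exact e ⟨e3, e4⟩
  · intro u v
    have := dm_pos (M := M) (fun a => ∑ z ∈ T, b0 M a z) u v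
    have := dm_pos (M := M) (fun a => ∑ z ∈ T, b0 M a z) v u
    omega

end Pool.Agent.MP_aaf698_co

end
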