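import Pool.Agent.MP_aaf698_co.Core
import Pool.Agent.Lib.Cx.Graph
import Pool.Agent.MP_aaf698_co.Mg.Complete

-- part MP_aaf698_co.Mem
section

namespace Pool.Agent.MP_aaf698_co

open Function Set Pool.Agent.Lib.Cx N68a2faeb N793a5b8e

/-- The multiplicities given by adjacency lists. -/
def mult (L : List (List ℕ)) (u v : ℕ) : ℕ := (L.getD u []).count v

/-- Well formed adjacency lists. -/
def Wf (L : List (List ℕ)) : Prop :=
  (∀ u < L.length, ∀ v ∈ L.getD u [], v < L.length ∧ v ≠ u) ∧
    ∀ u < L.length, ∀ v < L.length, mult L u v = mult L v u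

def Inst (L : List (List ℕ)) : Prop := Wf L ∧ HasCore (Iio L.length) (mult L)

theorem pal_eq : PAL = langOf Inst := by
  have key : ∀ L : List (List ℕ), ((∀ u : Fin L.length, ∀ v ∈ L.get u, v < L.length ∧ v ≠ u) ∧
      (∀ u v : Fin L.length, (L.get u).count v.1 = (L.get v).count u.1) ∧
      Realizable (fun u v : Fin L.length => (L.get u).count v.1)) ↔ Inst L := by
    intro L
    have e : ∀ u : Fin L.length, L.get u = L.getD u [] := fun u => by simp
    unfold Inst Wf mult
    simp only [e, Fin.forall_iff, and_assoc]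
    refine and_congr_right fun h1 => and_congr_right fun _ => ?_
    have a := realizable_iff_core (fun u v : Fin L.length => (L.getD u []).count v.1)
      (fun u => List.count_eq_zero.2 fun h => (h1 u.1 u.2 u.1 h).2 rfl)
    have b := hasCore_comp (fun u v : ℕ => (L.getD u []).count v)
      (Fin.val_injective (n := L.length))
    rw [Fin.range_val] at b
    exact a.trans b
  funext x
  simp only [PAL, langOf, decide_eq_decide, key]
  exact ⟨fun ⟨L, a, b⟩ => ⟨L, a.symm, b⟩, fun ⟨L, a, b⟩ => ⟨L, a.symm, b⟩⟩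

theorem ncard_pairs (k : ℕ) (Q : ℕ × ℕ → Prop) [DecidablePred Q]
    (h : ∀ p, Q p → p.1 < k ∧ p.2 < k) :
    {p | Q p}.ncard = (List.range k ×ˢ List.range k).countP (fun p => decide (Q p)) := by
  rw [List.countP_eq_length_filter, ← List.toFinset_card_of_nodup
    ((List.nodup_range.product List.nodup_range).filter _), ← ncard_coe_finset]
  congr 1
  ext ⟨a, b⟩
  simp only [mem_ofPred_eq, List.coe_toFinset, List.mem_filter, List.mem_product, List.mem_range,
    decide_eq_true_eq]
  exact ⟨fun a => ⟨h _ a, a⟩, fun a => a.2⟩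

theorem exists_list_choice {ι C : Type} (Q : ι → C → Prop) (is : List ι) :
    ∃ cs : List C, cs.length ≤ is.length ∧ ∀ i ∈ is, (∃ c, Q i c) → ∃ c ∈ cs, Q i c := by
  induction is with
  | nil => exact ⟨[], le_rfl, by simp⟩
  | cons i is ih =>
    obtain ⟨cs, h1, h2⟩ := ih
    by_cases h : ∃ c, Q i c
    · obtain ⟨c, hc⟩ := h
      refine ⟨c :: cs, by simpa using h1, fun j hj hq => ?_⟩
      rcases List.mem_cons.1 hj with rfl | hj
      · exact ⟨c, by simp, hc⟩
      · obtain ⟨d, hd, e⟩ := h2 j hj hq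
        exact ⟨d, by simp [hd], e⟩
    · refine ⟨cs, by simp; omega, fun j hj hq => ?_⟩
      rcases List.mem_cons.1 hj with rfl | hj
      · exact absurd hq h
      · exact h2 j hj hq

/-- A realization with few vertices. -/
theorem Core.small {X C : Type} {L : List (List ℕ)} {W : Set X} {π : X → ℕ}
    {R : C → X → X → Prop} (h : Core (Iio L.length) (mult L) W π R) :
    ∃ (k : ℕ) (π' : ℕ → ℕ) (R' : C → ℕ → ℕ → Prop),
      k ≤ L.length + L.length * (L.length * L.flatten.length) ∧
      Core (Iio L.length) (mult L) (Iio k) π' R' := by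
  classical
  have hr : ∀ u : Fin L.length, ∃ x ∈ W, π x = u := fun u => by
    have : (u : ℕ) ∈ π '' W := h.img ▸ u.2
    exact this
  choose r hr1 hr2 using hr
  let A : Fin L.length × Fin L.length → Set (X × X) := fun z =>
    {p : X × X | π p.1 = z.1 ∧ π p.2 = z.2 ∧ ∃ c, R c p.1 p.2}
  have hA : ∀ z, (A z).ncard ≤ L.flatten.length := fun z => by
    rw [h.count _ z.1.2 _ z.2.2]
    refine List.count_le_length.trans (List.Sublist.length_le (List.sublist_flatten_of_mem ?_))
    simp
  let W' : Set X := range r ∪ Prod.fst '' (⋃ z, A z)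
  have hW' : W' ⊆ W := by
    rintro x (⟨u, rfl⟩ | ⟨p, hp, rfl⟩)
    · exact hr1 u
    · obtain ⟨z, -, -, c, hc⟩ := mem_iUnion.1 hp
      exact h.mem _ _ _ hc
  have hfin : W'.Finite := h.fin.subset hW'
  have hAf : (⋃ z, A z).Finite := (h.fin.prod h.fin).subset fun p hp => by
    obtain ⟨z, -, -, c, hc⟩ := mem_iUnion.1 hp
    exact ⟨h.mem _ _ _ hc, h.mem _ _ _ (h.symm _ _ _ hc)⟩
  have hc : W'.ncard ≤ L.length + L.length * (L.length * L.flatten.length) := by
    refine (ncard_union_le _ _).trans (add_le_add ?_ ((ncard_image_le hAf).trans ?_))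
    · rw [← image_univ]
      exact (ncard_image_le (toFinite _)).trans (by simp [ncard_univ])
    · refine (ncard_iUnion_le_of_fintype _).trans ?_
      refine (Finset.sum_le_sum fun z _ => hA z).trans (le_of_eq ?_)
      simp [mul_assoc]
  let l := hfin.toFinset.toList
  have hl : l.Nodup := Finset.nodup_toList _
  have hm : ∀ x, x ∈ l ↔ x ∈ W' := fun x => by simp [l]
  have hlen : l.length = W'.ncard := by
    rw [Finset.length_toList, ncard_eq_toFinset_card _ hfin]
  rcases isEmpty_or_nonempty X with hX | ⟨⟨d⟩⟩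
  · have h0 : L.length = 0 := by
      by_contra hne
      exact hX.elim (r ⟨0, by omega⟩)
    exact ⟨0, id, fun _ _ _ => False, by omega, by simp, by simp, by simp, by simp,
      by simp [h0], by simp, by simp [h0]⟩
  have him : (fun i => l.getD i d) '' Iio l.length = W' := by
    ext x
    rw [← hm]
    constructor
    · rintro ⟨i, hi, rfl⟩
      have hi' : i < l.length := hi
      simp [hi']
    · intro hx
      obtain ⟨i, hi, rfl⟩ := List.getElem_of_mem hx
      exact ⟨i, hi, by simp [hi]⟩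
  refine ⟨l.length, _, _, hlen ▸ hc, h.comap (finite_Iio _) (fun i => l.getD i d) ?_ ?_ ?_ ?_⟩
  · intro i hi j hj e
    have hi' : i < l.length := hi
    have hj' : j < l.length := hj
    simp only [List.getD_eq_getElem?_getD, List.getElem?_eq_getElem hi',
      List.getElem?_eq_getElem hj', Option.getD_some] at e
    exact (hl.getElem_inj_iff).1 e
  · exact fun i hi => hW' (him ▸ mem_image_of_mem _ hi)
  · intro c x y hc
    rw [him]
    have a : π x ∈ Iio L.length := h.img ▸ mem_image_of_mem _ (h.mem _ _ _ hc)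
    have b : π y ∈ Iio L.length := h.img ▸ mem_image_of_mem _ (h.mem _ _ _ (h.symm _ _ _ hc))
    exact Or.inr ⟨(x, y), mem_iUnion.2 ⟨(⟨_, a⟩, ⟨_, b⟩), rfl, rfl, c, hc⟩, rfl⟩
  · intro u hu
    rw [him]
    exact ⟨r ⟨u, hu⟩, Or.inl ⟨_, rfl⟩, hr2 _⟩

open Classical in
/-- The verifier. -/
def Check (L : List (List ℕ)) (P : List ℕ) (Ms : List (List (List Bool))) : Prop :=
  (∀ M ∈ Ms, ∀ x < P.length, ∀ y < P.length, ent M x y = true →
    ent M y x = true ∧ ∀ z < P.length, ent M x z = true → y = z) ∧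
  (∀ x < P.length, P.getD x 0 < L.length) ∧ (∀ u < L.length, ∃ x < P.length, P.getD x 0 = u) ∧
  (∀ x < P.length, ∀ y < P.length, (P.getD x 0 = P.getD y 0 ↔ ∀ M ∈ Ms,
    ((∃ z < P.length, ent M x z = true) ↔ ∃ z < P.length, ent M y z = true))) ∧
  ∀ u < L.length, ∀ v < L.length, (List.range P.length ×ˢ List.range P.length).countP
    (fun p => decide (P.getD p.1 0 = u ∧ P.getD p.2 0 = v ∧ ∃ M ∈ Ms,
      p.1 < P.length ∧ p.2 < P.length ∧ ent M p.1 p.2 = true)) = mult L u v

theorem check_sound {L : List (List ℕ)} {P : List ℕ} {Ms : List (List (List Bool))}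
    (h : Check L P Ms) : HasCore (Iio L.length) (mult L) := by
  classical
  obtain ⟨h1, h2, h3, h4, h5⟩ := h
  refine ⟨ℕ, {M // M ∈ Ms}, Iio P.length, fun x => P.getD x 0,
    fun M x y => x < P.length ∧ y < P.length ∧ ent M.1 x y = true, finite_Iio _,
    fun _ _ _ h => h.1, fun M x y ⟨a, b, c⟩ => ⟨b, a, (h1 _ M.2 x a y b c).1⟩,
    fun M x y z ⟨a, b, c⟩ ⟨_, b', c'⟩ => (h1 _ M.2 x a y b c).2 z b' c', ?_, fun x hx y hy => ?_,
    fun u hu v hv => ?_⟩
  · ext u
    exact ⟨by rintro ⟨x, hx, rfl⟩; exact h2 x hx, fun hu => h3 u hu⟩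
  · have hx' : x < P.length := hx
    have hy' : y < P.length := hy
    simp only [h4 x hx y hy, Subtype.forall, hx', hy', true_and]
  · rw [← h5 u hu v hv, ncard_pairs P.length _ (fun p ⟨_, _, _, a, b, _⟩ => ⟨a, b⟩)]
    congr 1
    funext p
    simp only [Subtype.exists, exists_prop]

theorem check_complete {L : List (List ℕ)} (h : HasCore (Iio L.length) (mult L)) :
    ∃ P Ms, P.length ≤ L.length + L.length * (L.length * L.flatten.length) ∧
      (∀ a ∈ P, a ≤ L.length) ∧ Ms.length ≤ 2 * (P.length * P.length) ∧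
      (∀ M ∈ Ms, M.length = P.length ∧ ∀ r ∈ M, r.length = P.length) ∧ Check L P Ms := by
  classical
  obtain ⟨X, C, W, π, R, h⟩ := h
  obtain ⟨k, π, R, hk, h⟩ := h.small
  obtain ⟨c1, a1, b1⟩ := exists_list_choice (fun (p : ℕ × ℕ) c => R c p.1 p.2)
    (List.range k ×ˢ List.range k)
  obtain ⟨c2, a2, b2⟩ := exists_list_choice
    (fun (p : ℕ × ℕ) c => ¬ ((∃ z, R c p.1 z) ↔ ∃ z, R c p.2 z)) (List.range k ×ˢ List.range k)
  let mat : C → List (List Bool) := fun c =>
    (List.range k).map (fun a => (List.range k).map (fun b => decide (R c a b)))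
  have he : ∀ c, ∀ x < k, ∀ y < k, (ent (mat c) x y = true ↔ R c x y) := fun c x hx y hy => by
    simp [ent, mat, hx, hy]
  have he' : ∀ c, ∀ x < k, ((∃ z < k, ent (mat c) x z = true) ↔ ∃ z, R c x z) := fun c x hx =>
    ⟨fun ⟨z, hz, e⟩ => ⟨z, (he c x hx z hz).1 e⟩, fun ⟨z, e⟩ =>
      have hz := h.mem _ _ _ (h.symm _ _ _ e)
      ⟨z, hz, (he c x hx z hz).2 e⟩⟩
  have hP : ∀ x < k, ((List.range k).map π).getD x 0 = π x := fun x hx => by simp [hx]
  have hπ : ∀ x < k, π x < L.length := fun x hx => by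
    have : π x ∈ Iio L.length := h.img ▸ mem_image_of_mem _ hx
    exact this
  refine ⟨(List.range k).map π, (c1 ++ c2).map mat, by simpa using hk, ?_, ?_, ?_, ?_⟩
  · intro a ha
    obtain ⟨x, hx, rfl⟩ := List.mem_map.1 ha
    exact (hπ x (List.mem_range.1 hx)).le
  · simp only [List.length_product, List.length_range] at a1 a2
    simp only [List.length_map, List.length_append, List.length_range]
    omega
  · intro M hM
    obtain ⟨c, -, rfl⟩ := List.mem_map.1 hM
    simp [mat]
  unfold Check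
  simp only [List.length_map, List.length_range, List.forall_mem_map]
  refine ⟨fun c _ x hx y hy e => ?_, fun x hx => ?_, fun u hu => ?_, fun x hx y hy => ?_,
    fun u hu v hv => ?_⟩
  · rw [he c x hx y hy] at e
    exact ⟨(he c y hy x hx).2 (h.symm _ _ _ e),
      fun z hz e' => h.func _ _ _ _ e ((he c x hx z hz).1 e')⟩
  · rw [hP x hx]; exact hπ x hx
  · obtain ⟨x, hx, e⟩ : u ∈ π '' Iio k := h.img ▸ hu
    exact ⟨x, hx, by rw [hP x hx, e]⟩
  · rw [hP x hx, hP y hy, h.pal x hx y hy]
    simp only [he' _ x hx, he' _ y hy]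
    refine ⟨fun e c _ => e c, fun e c => ?_⟩
    by_contra hc
    obtain ⟨d, hd, e'⟩ := b2 (x, y) (by simp [hx, hy]) ⟨c, hc⟩
    exact e' (e d (by simp [hd]))
  · rw [← h.count u hu v hv, ncard_pairs k _ (fun p ⟨_, _, c, hc⟩ =>
      ⟨h.mem _ _ _ hc, h.mem _ _ _ (h.symm _ _ _ hc)⟩)]
    refine List.countP_congr fun ⟨x, y⟩ hp => ?_
    obtain ⟨hx, hy⟩ : x < k ∧ y < k := by simpa using hp
    simp only [decide_eq_true_eq, hP x hx, hP y hy, hx, hy, true_and]
    refine and_congr_right fun _ => and_congr_right fun _ => ⟨?_, fun hc => ?_⟩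
    · rintro ⟨M, hM, e⟩
      obtain ⟨c, -, rfl⟩ := List.mem_map.1 hM
      exact ⟨c, (he c x hx y hy).1 e⟩
    · obtain ⟨d, hd, e⟩ := b1 (x, y) hp hc
      exact ⟨mat d, List.mem_map_of_mem (by simp [hd]), (he d x hx y hy).2 e⟩

theorem inst_mem_NP : langOf Inst ∈ NP := by
  classical
  let k : List (List ℕ) → ℕ := fun L => L.length + L.length * (L.length * L.flatten.length)
  refine langOf_mem_NP (β := List ℕ × List (List (List Bool)))
    (fun z => Wf z.1 ∧ Check z.1 z.2.1 z.2.2) (by unfold Wf Check mult; fun_prop)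
    (fun L => 2 * (k L * (2 * L.length + 1)) + 1 +
      2 * (k L * k L) * (2 * (k L * (2 * (3 * k L) + 1)) + 1)) (by unfold k; fun_prop)
    (fun L b h => ⟨h.1, check_sound h.2⟩) fun L h => ?_
  obtain ⟨P, Ms, h1, h2, h3, h4, h5⟩ := check_complete h.2
  refine ⟨(P, Ms), ?_, h.1, h5⟩
  have h1' : P.length ≤ k L := h1
  have e1 := size_list_le P L.length fun a ha => (size_nat_le_self _).trans (h2 a ha)
  have e2 := size_list_le Ms (k L * (2 * (3 * k L) + 1)) fun M hM => by
    have := size_list_le M (3 * k L) fun r hr => by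
      rw [size_listBool, (h4 M hM).2 r hr]; omega
    rw [(h4 M hM).1] at this
    exact this.trans (Nat.mul_le_mul_right _ h1')
  rw [size_prod]
  have e3 : P.length * (2 * L.length + 1) ≤ k L * (2 * L.length + 1) :=
    Nat.mul_le_mul_right _ h1'
  have e4 : Ms.length * (2 * (k L * (2 * (3 * k L) + 1)) + 1) ≤
      2 * (k L * k L) * (2 * (k L * (2 * (3 * k L) + 1)) + 1) :=
    Nat.mul_le_mul_right _ (h3.trans (Nat.mul_le_mul_left _ (Nat.mul_le_mul h1' h1')))
  simp only at e1 e2 ⊢
  omega

end Pool.Agent.MP_aaf698_co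

end

-- part MP_aaf698_co.Hard
section

namespace Pool.Agent.MP_aaf698_co

open Function Set Pool.Agent.Lib.Cx N68a2faeb N793a5b8e

/-- The adjacency lists of the multigraph `m` on the vertices listed in `S`. -/
def rows {V : Type} (S : List V) (m : V → V → ℕ) : List (List ℕ) :=
  S.map fun u => S.zipIdx.flatMap fun p => List.replicate (m u p.1) p.2

theorem count_row {V : Type} (g : V → ℕ) (S : List V) (k j : ℕ) (hj : j < S.length) :
    ((S.zipIdx k).flatMap fun p => List.replicate (g p.1) p.2).count (k + j) = g S[j] := by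
  induction S generalizing k j with
  | nil => simp at hj
  | cons a S ih =>
    simp only [List.zipIdx_cons, List.flatMap_cons, List.count_append, List.count_replicate]
    cases j with
    | zero =>
      rw [List.count_eq_zero.2]
      · simp
      · simp only [List.mem_flatMap, List.mem_replicate, not_exists, not_and]
        rintro ⟨x, i⟩ hx - e
        have := List.le_snd_of_mem_zipIdx hx
        omega
    | succ j =>
      have := ih (k + 1) j (by simpa using hj)
      rw [show k + (j + 1) = k + 1 + j by omega, this]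
      simp
      omega

theorem mult_rows {V : Type} (S : List V) (m : V → V → ℕ) (i j : Fin S.length) :
    mult (rows S m) i j = m (S.get i) (S.get j) := by
  have := count_row (m S[i]) S 0 j j.2
  simpa [mult, rows] using this

theorem inst_rows {V : Type} {S : List V} (hS : S.Nodup) {m : V → V → ℕ}
    (h1 : ∀ u v, m u v = m v u) (h0 : ∀ u, m u u = 0) :
    Inst (rows S m) ↔ HasCore {u | u ∈ S} m := by
  have hl : (rows S m).length = S.length := by simp [rows]
  have a := hasCore_comp (mult (rows S m)) (Fin.val_injective (n := S.length))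
  have b := hasCore_comp m (List.nodup_iff_injective_get.1 hS)
  rw [Fin.range_val] at a
  rw [Set.range_list_get] at b
  simp only [mult_rows] at a
  unfold Inst Wf
  rw [hl, ← a, b]
  refine and_iff_right ⟨fun u hu v hv => ?_, fun u hu v hv => ?_⟩
  · have hv' : v < S.length := by
      simp only [rows, List.getD_eq_getElem?_getD, List.getElem?_map, List.getElem?_eq_getElem hu,
        Option.map_some, Option.getD_some, List.mem_flatMap, List.mem_replicate] at hv
      obtain ⟨⟨x, i⟩, hx, -, rfl⟩ := hv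
      simpa using List.snd_lt_of_mem_zipIdx hx
    refine ⟨hv', ?_⟩
    rintro rfl
    have := mult_rows S m ⟨v, hu⟩ ⟨v, hu⟩
    rw [h0] at this
    exact List.count_eq_zero.1 this hv
  · exact (mult_rows S m ⟨u, hu⟩ ⟨v, hv⟩).trans
      ((h1 _ _).trans (mult_rows S m ⟨v, hv⟩ ⟨u, hu⟩).symm)

/-- The literal with number `o`. -/
def lit (φ : List (Clause3 ℕ)) (o : ℕ) : ℕ × Bool :=
  let c := φ.getD (o / 3) ((0, true), (0, true), (0, true))
  if o % 3 = 0 then c.1 else if o % 3 = 1 then c.2.1 else c.2.2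

/-- The pairs of contradictory literals. -/
def conf (φ : List (Clause3 ℕ)) : List (ℕ × ℕ) :=
  (List.range (3 * φ.length) ×ˢ List.range (3 * φ.length)).filter fun p =>
    decide (p.1 < p.2 ∧ (lit φ p.1).1 = (lit φ p.2).1 ∧ (lit φ p.1).2 ≠ (lit φ p.2).2)

theorem mem_conf {φ : List (Clause3 ℕ)} {p q : ℕ} : (p, q) ∈ conf φ ↔
    q < 3 * φ.length ∧ p < q ∧ (lit φ p).1 = (lit φ q).1 ∧ (lit φ p).2 ≠ (lit φ q).2 := by
  simp only [conf, List.mem_filter, List.mem_product, List.mem_range, decide_eq_true_eq]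
  exact ⟨fun h => ⟨h.1.2, h.2⟩, fun h => ⟨⟨h.2.1.trans h.1, h.1⟩, h.2⟩⟩

theorem holds_iff (φ : List (Clause3 ℕ)) (a : ℕ → Bool) (k : ℕ) (hk : k < φ.length) :
    φ[k].Holds a ↔ ∃ o, o / 3 = k ∧ a (lit φ o).1 = (lit φ o).2 := by
  have e : ∀ o, o / 3 = k → lit φ o =
      if o % 3 = 0 then φ[k].1 else if o % 3 = 1 then φ[k].2.1 else φ[k].2.2 := fun o ho => by
    simp [lit, ho, hk]
  constructor
  · rintro (h | h | h)
    · exact ⟨3 * k, by omega, by rw [e _ (by omega), if_pos (by omega)]; exact h⟩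
    · exact ⟨3 * k + 1, by omega, by
        rw [e _ (by omega), if_neg (by omega), if_pos (by omega)]; exact h⟩
    · exact ⟨3 * k + 2, by omega, by
        rw [e _ (by omega), if_neg (by omega), if_neg (by omega)]; exact h⟩
  · rintro ⟨o, ho, h⟩
    rw [e o ho] at h
    split_ifs at h
    · exact Or.inl h
    · exact Or.inr (Or.inl h)
    · exact Or.inr (Or.inr h)

theorem sat_iff_sel (φ : List (Clause3 ℕ)) : Sat3 φ ↔ Sel φ.length (conf φ) := by
  classical
  constructor
  · rintro ⟨a, ha⟩
    have : ∀ k < φ.length, ∃ o, o / 3 = k ∧ a (lit φ o).1 = (lit φ o).2 := fun k hk =>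
      (holds_iff φ a k hk).1 (ha _ (List.getElem_mem hk))
    choose! s h1 h2 using this
    refine ⟨s, h1, fun k hk k' hk' e => ?_⟩
    obtain ⟨-, -, e1, e2⟩ := mem_conf.1 e
    exact e2 (by rw [← h2 k hk, ← h2 k' hk', e1])
  · rintro ⟨s, h1, h2⟩
    refine ⟨fun v => decide (∃ k < φ.length, lit φ (s k) = (v, true)), fun c hc => ?_⟩
    obtain ⟨k, hk, rfl⟩ := List.getElem_of_mem hc
    refine (holds_iff φ _ k hk).2 ⟨s k, h1 k hk, ?_⟩
    cases e : (lit φ (s k)).2 with
    | true => exact decide_eq_true ⟨k, hk, by rw [← e]⟩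
    | false =>
      refine decide_eq_false ?_
      rintro ⟨k', hk', e'⟩
      have a1 := h1 k hk
      have a2 := h1 k' hk'
      rcases lt_trichotomy (s k) (s k') with h | h | h
      · exact h2 k hk k' hk' (mem_conf.2 ⟨by omega, h, by rw [e'], by simp [e, e']⟩)
      · rw [h, e'] at e
        simp at e
      · exact h2 k' hk' k hk (mem_conf.2 ⟨by omega, h, by rw [e'], by simp [e, e']⟩)

open Classical in
noncomputable def verts (φ : List (Clause3 ℕ)) : List Vx :=
  (List.range 6 ×ˢ (List.range (3 * φ.length + 1) ×ˢ List.range (3 * φ.length + 1))).filter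
    fun u => decide (InS φ.length (conf φ) u)

theorem mem_verts (φ : List (Clause3 ℕ)) (u : Vx) : u ∈ verts φ ↔ InS φ.length (conf φ) u := by
  obtain ⟨i, a, b⟩ := u
  simp only [verts, List.mem_filter, List.mem_product, List.mem_range, decide_eq_true_eq,
    and_iff_right_iff_imp]
  rintro (h | h | ⟨h, h'⟩)
  · simp only at h
    omega
  · simp only at h
    omega
  · have := mem_conf.1 h'
    simp only at h
    omega

theorem nodup_verts (φ : List (Clause3 ℕ)) : (verts φ).Nodup :=
  (List.nodup_range.product (List.nodup_range.product List.nodup_range)).filter _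

noncomputable def dg (φ : List (Clause3 ℕ)) (a : ℕ) : ℕ :=
  ((verts φ).flatMap fun z => List.replicate (b0 φ.length a z) ()).length

noncomputable def red (φ : List (Clause3 ℕ)) : List (List ℕ) :=
  rows (verts φ) (gm φ.length (dg φ))

theorem sat_iff_red (φ : List (Clause3 ℕ)) : Sat3 φ ↔ Inst (red φ) := by
  have hQ : ∀ p ∈ conf φ, p.1 < p.2 ∧ p.2 < 3 * φ.length := fun p hp =>
    ⟨(mem_conf.1 hp).2.1, (mem_conf.1 hp).1⟩
  have hT : ∀ u, u ∈ (verts φ).toFinset ↔ InS φ.length (conf φ) u := fun u => by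
    rw [List.mem_toFinset, mem_verts]
  have e : dg φ = fun a => ∑ z ∈ (verts φ).toFinset, b0 φ.length a z := funext fun a => by
    rw [List.sum_toFinset _ (nodup_verts φ)]
    simp [dg, List.length_flatMap]
  rw [sat_iff_sel, red, inst_rows (m := gm φ.length (dg φ)) (nodup_verts φ)
    (fun u v => add_comm _ _) (fun u => by
    have := dm_pos (M := φ.length) (dg φ) u u
    unfold gm
    omega), e]
  simp only [mem_verts]
  exact ⟨core_of_sel hQ hT, sel_of_core hQ hT⟩

section
variable {α : Type} [Enc α]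

@[fun_prop] theorem lit_pt {φ : α → List (Clause3 ℕ)} {o : α → ℕ} (h1 : PT φ) (h2 : PT o) :
    PT (fun x => lit (φ x) (o x)) := by
  unfold lit
  fun_prop

@[fun_prop] theorem conf_pt {φ : α → List (Clause3 ℕ)} (h1 : PT φ) : PT (fun x => conf (φ x)) := by
  unfold conf
  fun_prop

@[fun_prop] theorem verts_pt {φ : α → List (Clause3 ℕ)} (h1 : PT φ) :
    PT (fun x => verts (φ x)) := by
  unfold verts InS
  fun_prop

@[fun_prop] theorem b0_pt {M a : α → ℕ} {z : α → Vx} (h1 : PT M) (h2 : PT a) (h3 : PT z) :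
    PT (fun x => b0 (M x) (a x) (z x)) := by
  unfold b0
  fun_prop

@[fun_prop] theorem b0_pb {M a : α → ℕ} {z : α → Vx} : PB (fun x => b0 (M x) (a x) (z x)) := by
  unfold b0
  fun_prop

@[fun_prop] theorem dg_pt {φ : α → List (Clause3 ℕ)} {o : α → ℕ} (h1 : PT φ) (h2 : PT o) :
    PT (fun x => dg (φ x) (o x)) := by
  unfold dg
  fun_prop

@[fun_prop] theorem dg_pb {φ : α → List (Clause3 ℕ)} {o : α → ℕ} (h1 : PT φ) (h2 : PT o) :
    PB (fun x => dg (φ x) (o x)) := by
  unfold dg
  fun_prop

end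

theorem red_pt : PT red := by
  unfold red rows gm dm
  fun_prop

theorem pal_complete : IsCompleteFor NP PAL := by
  rw [pal_eq]
  exact (hardOn_sat3.of_red (Pr' := fun _ => True) red red_pt
    fun φ _ => ⟨trivial, sat_iff_red φ⟩).isComplete (fun _ _ => Iff.rfl) inst_mem_NP

end Pool.Agent.MP_aaf698_co

end
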